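import Pool.Agent.Q5.SG.Stm2
import Pool.Agent.Q14.AR.Cheb
import Pool.Agent.W401.Cheb.Main

/-! # Job SG-CB: Chebotarev's theorem with primes of degree one -/

set_option autoImplicit false
set_option linter.unusedSectionVars false

namespace Pool.Agent.Q248.SG

open NumberField IsDedekindDomain Polynomial

open Pool.Agent.Q92.AR (IsFrobenius Unramified)

section
variable {F : Type} [Field F] [NumberField F] {p : ℕ} [Fact p.Prime]

/-- a homomorphism to the algebraic closure of `ZMod p` with values fixed by Frobenius has a kernel of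
norm `p` -/
theorem absNorm_ker (f : 𝓞 F →+* AlgebraicClosure (ZMod p)) (hf : ∀ x, f x ^ p = f x) :
    Ideal.absNorm (RingHom.ker f) = p := by
  classical
  have hp : p.Prime := Fact.out
  have h1 : Ideal.absNorm (RingHom.ker f) = Nat.card f.range := by
    rw [Ideal.absNorm_apply, Submodule.cardQuot_apply]
    exact Nat.card_congr (RingHom.quotientKerEquivRange f).toEquiv
  let P : (AlgebraicClosure (ZMod p))[X] := X ^ p - X
  have hP0 : P ≠ 0 := FiniteField.X_pow_card_sub_X_ne_zero _ hp.one_lt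
  have hPd : P.natDegree = p := FiniteField.X_pow_card_sub_X_natDegree_eq _ hp.one_lt
  have h2 : (f.range : Set (AlgebraicClosure (ZMod p))) ⊆ (P.roots.toFinset : Set _) := by
    rintro _ ⟨x, rfl⟩
    rw [Finset.mem_coe, Multiset.mem_toFinset, mem_roots hP0, IsRoot.def]
    simp [P, hf x]
  have h3 : (f.range : Set (AlgebraicClosure (ZMod p))).ncard ≤ p := by
    refine (Set.ncard_le_ncard h2 (Finset.finite_toSet _)).trans ?_
    rw [Set.ncard_coe_finset]
    exact (Multiset.toFinset_card_le _).trans ((card_roots' P).trans hPd.le)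
  have h4 : p ≤ (f.range : Set (AlgebraicClosure (ZMod p))).ncard := by
    have h5 : Set.range (algebraMap (ZMod p) (AlgebraicClosure (ZMod p))) ⊆
        (f.range : Set (AlgebraicClosure (ZMod p))) := by
      rintro _ ⟨k, rfl⟩
      refine ⟨((k.val : ℕ) : 𝓞 F), ?_⟩
      rw [map_natCast, ← map_natCast (algebraMap (ZMod p) (AlgebraicClosure (ZMod p))),
        ZMod.natCast_zmod_val]
    have h6 : (Set.range (algebraMap (ZMod p) (AlgebraicClosure (ZMod p)))).ncard = p := by
      rw [← Set.image_univ, Set.ncard_image_of_injective _ (algebraMap (ZMod p) _).injective,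
        Set.ncard_univ, Nat.card_zmod]
    exact h6.symm.le.trans (Set.ncard_le_ncard h5 ((Finset.finite_toSet _).subset h2))
  rw [h1]
  exact le_antisymm h3 h4

end

section
variable {F M L : Type} [Field F] [NumberField F] [Field M] [NumberField M] [Field L] [NumberField L]
  [Algebra F M] [Algebra F L] [Algebra M L] [IsScalarTower F M L] [IsGalois ℚ L]

theorem cb_of (g : M ≃ₐ[F] M) (g' : L ≃ₐ[F] L)
    (hg : ∀ x : M, g' (algebraMap M L x) = algebraMap M L (g x))
    (B : Set (HeightOneSpectrum (𝓞 F))) (hB : B.Finite) :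
    ∃ v : HeightOneSpectrum (𝓞 F), v ∉ B ∧ (Ideal.absNorm v.asIdeal).Prime ∧ IsFrobenius v g := by
  obtain ⟨b, hb⟩ := (hB.image fun v => Ideal.absNorm v.asIdeal).bddAbove
  let h : Gal(L/ℚ) := AlgEquiv.restrictScalars ℚ g'
  obtain ⟨p, ⟨hp, hx⟩, hpb⟩ := (Pool.Agent.W401.Cheb.infinite_frob L h).exists_gt b
  have : Fact p.Prime := ⟨hp⟩
  unfold Pool.Agent.W401.Cheb.xp at hx
  rw [dif_pos hp] at hx
  obtain ⟨φ, hφ⟩ : ∃ φ : 𝓞 L →+* AlgebraicClosure (ZMod p), Pool.Agent.W401.Cheb.HasFrob p φ h := by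
    by_contra hne
    apply hx
    have : IsEmpty {φ : 𝓞 L →+* AlgebraicClosure (ZMod p) // Pool.Agent.W401.Cheb.HasFrob p φ h} :=
      ⟨fun ψ => hne ⟨ψ.1, ψ.2⟩⟩
    exact Nat.card_of_isEmpty
  let fM : 𝓞 M →+* AlgebraicClosure (ZMod p) := φ.comp (algebraMap (𝓞 M) (𝓞 L))
  let fF : 𝓞 F →+* AlgebraicClosure (ZMod p) := fM.comp (algebraMap (𝓞 F) (𝓞 M))
  have hM : ∀ x y : 𝓞 M, (y : M) = g (x : M) → fM y = fM x ^ p := by
    intro x y hy
    have h1 := hφ (algebraMap (𝓞 M) (𝓞 L) x)
    have h2 : h • algebraMap (𝓞 M) (𝓞 L) x = algebraMap (𝓞 M) (𝓞 L) y := by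
      apply RingOfIntegers.ext
      have h3 : g' (algebraMap M L (x : M)) = algebraMap M L (y : M) := by rw [hg, hy]
      exact h3
    rw [h2] at h1
    exact h1
  have hF : ∀ x, fF x ^ p = fF x := by
    intro x
    have h1 := hM (algebraMap (𝓞 F) (𝓞 M) x) (algebraMap (𝓞 F) (𝓞 M) x) (by
      have h2 : ((algebraMap (𝓞 F) (𝓞 M) x : 𝓞 M) : M) = algebraMap F M (x : F) := rfl
      rw [h2, AlgEquiv.commutes])
    exact h1.symm
  have hpM : ((p : ℕ) : 𝓞 M) ∈ RingHom.ker fM := by
    rw [RingHom.mem_ker, map_natCast, CharP.cast_eq_zero]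
  have hpF : ((p : ℕ) : 𝓞 F) ∈ RingHom.ker fF := by
    rw [RingHom.mem_ker, map_natCast, CharP.cast_eq_zero]
  have hMp : (RingHom.ker fM).IsPrime := RingHom.ker_isPrime fM
  have hFp : (RingHom.ker fF).IsPrime := RingHom.ker_isPrime fF
  have hM0 : RingHom.ker fM ≠ ⊥ := by
    intro h0
    rw [h0, Ideal.mem_bot] at hpM
    exact hp.ne_zero (by exact_mod_cast hpM)
  have hF0 : RingHom.ker fF ≠ ⊥ := by
    intro h0
    rw [h0, Ideal.mem_bot] at hpF
    exact hp.ne_zero (by exact_mod_cast hpF)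
  let v : HeightOneSpectrum (𝓞 F) := ⟨RingHom.ker fF, hFp, hF0⟩
  have hv : Ideal.absNorm v.asIdeal = p := absNorm_ker fF hF
  refine ⟨v, fun hvB => ?_, by rw [hv]; exact hp, RingHom.ker fM, hMp.isMaximal hM0, rfl, fun x => ?_⟩
  · have h1 := hb ⟨v, hvB, rfl⟩
    simp only [hv] at h1
    omega
  · have hgx : IsIntegral ℤ (g (x : M)) := x.2.map g
    refine ⟨⟨g (x : M), hgx⟩ - x ^ p, ?_, by rw [hv]; rfl⟩
    rw [RingHom.mem_ker, map_sub, map_pow, hM x ⟨g (x : M), hgx⟩ rfl, sub_self]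

end

theorem cb : Pool.Agent.Q5.SG.S_CB := by
  intro F M _ _ _ _ _ _ g B hB
  have hB' : (B ∪ {v : HeightOneSpectrum (𝓞 F) | ¬ Unramified M v}).Finite :=
    hB.union Pool.Agent.Q14.AR.ramified_finite
  have : IsAlgClosure ℚ (AlgebraicClosure M) := IsAlgClosure.ofAlgebraic ℚ M (AlgebraicClosure M)
  have : Normal ℚ (AlgebraicClosure M) := IsAlgClosure.normal ℚ _
  let L := IntermediateField.normalClosure ℚ M (AlgebraicClosure M)
  have : FiniteDimensional ℚ L := inferInstance
  have : NumberField L := { to_charZero := inferInstance, to_finiteDimensional := inferInstance }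
  have : Normal ℚ L := normalClosure.normal ℚ M (AlgebraicClosure M)
  have : IsGalois ℚ L := ⟨⟩
  let _ : Algebra F L := ((algebraMap M L).comp (algebraMap F M)).toAlgebra
  have : IsScalarTower F M L := IsScalarTower.of_algebraMap_eq fun _ => rfl
  have : Normal F L := Normal.tower_top_of_normal ℚ F L
  obtain ⟨v, hv, h1, h2⟩ := cb_of g (g.liftNormal L) (g.liftNormal_commutes L) _ hB'
  rw [Set.mem_union, not_or] at hv
  exact ⟨v, hv.1, h1, not_not.1 hv.2, h2⟩

end Pool.Agent.Q248.SG
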