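import Pool.Agent.Q5.SG.Stm2

/-! # Job SG-NR: only finitely many primes lie above ramified rational primes -/

set_option autoImplicit false
set_option linter.unusedSectionVars false

namespace Pool.Agent.Q248.SG

open NumberField IsDedekindDomain Pool.Agent.Y18.LC

theorem unram_of_not_dvd {K : Type} [Field K] [NumberField K] {q : ℕ} (hq : q.Prime)
    (hqN : ¬ q ∣ Ideal.absNorm (differentIdeal ℤ (𝓞 K))) : Unram K q := by
  have hq0 : Ideal.span {(q : 𝓞 K)} ≠ 0 := by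
    rw [Ne, Ideal.zero_eq_bot, Ideal.span_singleton_eq_bot]
    exact_mod_cast hq.ne_zero
  have hmap : (Ideal.span {(q : ℤ)}).map (algebraMap ℤ (𝓞 K)) = Ideal.span {(q : 𝓞 K)} := by
    rw [Ideal.map_span, Set.image_singleton, map_natCast]
  have hqp : Prime (q : ℤ) := Nat.prime_iff_prime_int.1 hq
  have hmax : (Ideal.span {(q : ℤ)}).IsMaximal :=
    PrincipalIdealRing.isMaximal_of_irreducible hqp.irreducible
  have hne : Ideal.span {(q : ℤ)} ≠ ⊥ := by
    rw [Ne, Ideal.span_singleton_eq_bot]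
    exact hqp.ne_zero
  have hsq : Squarefree (Ideal.span {(q : 𝓞 K)}) := by
    rw [squarefree_iff_no_irreducibles hq0]
    intro P hP hPP
    apply hqN
    have h2 : P ^ 2 ∣ (Ideal.span {(q : ℤ)}).map (algebraMap ℤ (𝓞 K)) := by
      rw [hmap, pow_two]
      exact hPP
    have h3 := pow_sub_one_dvd_differentIdeal ℤ P 2 hne h2
    have h4 : differentIdeal ℤ (𝓞 K) ≤ P := by
      rw [← Ideal.dvd_iff_le]
      simpa using h3
    have hNP : ((Ideal.absNorm (differentIdeal ℤ (𝓞 K)) : ℕ) : 𝓞 K) ∈ P := h4 (Ideal.absNorm_mem _)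
    have hqP : (q : 𝓞 K) ∈ P := by
      have h5 : Ideal.span {(q : 𝓞 K)} ≤ P := Ideal.dvd_iff_le.1 ((dvd_mul_left P P).trans hPP)
      exact h5 (Ideal.mem_span_singleton_self _)
    by_contra hc
    have hcop : IsCoprime (q : ℤ) (Ideal.absNorm (differentIdeal ℤ (𝓞 K)) : ℤ) :=
      Nat.isCoprime_iff_coprime.2 ((Nat.Prime.coprime_iff_not_dvd hq).2 hc)
    obtain ⟨a, b, hab⟩ := hcop
    apply hP.not_isUnit
    rw [Ideal.isUnit_iff, Ideal.eq_top_iff_one]
    have h6 : (1 : 𝓞 K) = (a : 𝓞 K) * (q : 𝓞 K) +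
        (b : 𝓞 K) * ((Ideal.absNorm (differentIdeal ℤ (𝓞 K)) : ℕ) : 𝓞 K) := by
      have := congrArg (fun z : ℤ => (z : 𝓞 K)) hab
      push_cast at this
      exact this.symm
    rw [h6]
    exact P.add_mem (P.mul_mem_left _ hqP) (P.mul_mem_left _ hNP)
  have hrad := hsq.isRadical
  intro x hx
  obtain ⟨n, hn⟩ := hx
  have h7 : Ideal.span {(q : 𝓞 K)} ∣ (Ideal.span {x}) ^ n := by
    rw [Ideal.span_singleton_pow, Ideal.dvd_span_singleton]
    exact hn
  have h8 := hrad n _ h7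
  rw [Ideal.dvd_span_singleton] at h8
  exact h8

theorem nr : Pool.Agent.Q5.SG.S_NR := by
  intro K _ _
  have hD : differentIdeal ℤ (𝓞 K) ≠ ⊥ := differentIdeal_ne_bot
  have hN : Ideal.absNorm (differentIdeal ℤ (𝓞 K)) ≠ 0 := by
    rw [Ne, Ideal.absNorm_eq_zero_iff]
    exact hD
  have hI : Ideal.span {((Ideal.absNorm (differentIdeal ℤ (𝓞 K)) : ℕ) : 𝓞 K)} ≠ 0 := by
    rw [Ne, Ideal.zero_eq_bot, Ideal.span_singleton_eq_bot]
    exact_mod_cast hN
  refine (Ideal.finite_factors hI).subset ?_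
  rintro 𝔮 ⟨hq, hu⟩
  have hq𝔮 : ((Ideal.absNorm 𝔮.asIdeal : ℕ) : 𝓞 K) ∈ 𝔮.asIdeal := Ideal.absNorm_mem _
  rw [Set.mem_setOf_eq, Ideal.dvd_span_singleton]
  suffices h : Ideal.absNorm 𝔮.asIdeal ∣ Ideal.absNorm (differentIdeal ℤ (𝓞 K)) by
    obtain ⟨c, hc⟩ := h
    rw [hc, Nat.cast_mul]
    exact Ideal.mul_mem_right _ _ hq𝔮
  by_contra hqN
  exact hu (unram_of_not_dvd hq hqN)

end Pool.Agent.Q248.SG
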